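import Pool.Agent.Helper78.LM.Goals

set_option autoImplicit false

/-!
# PDA: counting the runs of a pushdown machine in polynomial time

Dynamic programming from the last stage to the first; all numbers are computed modulo a power of
two which is larger than the result.
-/

namespace Pool.Agent.Helper38.LM

open Pool.Agent.Helper81.CC Pool.Agent.Helper51.ZP Pool.Agent.Bin Pool.Agent.Helper78.LM

/-- the table of a suffix: the numbers `pop`, the numbers `cnt` for a stack with one symbol, and
the numbers `cnt` for the empty stack -/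
abbrev Tab := List (List (List (List BN))) × List (List BN) × List BN

/-- zero -/
def zz : BN := ⟨0⟩

/-- one -/
def oo : BN := ⟨1⟩

/-- the default table -/
def T0 : Tab := ([], [], [])

/-- a number `pop` -/
def lookP (D : List Tab) (j q s k q' : ℕ) : BN :=
  ((((D.getD j T0).1.getD q []).getD s []).getD k []).getD q' zz

/-- a number `cnt` for a stack with one symbol -/
def lookC (D : List Tab) (j q s : ℕ) : BN := ((D.getD j T0).2.1.getD q []).getD s zz

/-- a number `cnt` for the empty stack -/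
def lookZ (D : List Tab) (j q : ℕ) : BN := (D.getD j T0).2.2.getD q zz

/-- contribution of a move to `pop` -/
def popTerm (nQ : ℕ) (D : List Tab) (mv : Move) (k q' : ℕ) : BN :=
  if mv.2.isEmpty = true then (if k = 1 ∧ mv.1 = q' then oo else zz)
  else if mv.2.tail.isEmpty = true then lookP D 0 mv.1 (mv.2.headD 0) (k - 1) q'
  else BN.sum ((List.range k).map fun k1 => BN.sum ((List.range nQ).map fun q1 =>
    lookP D 0 mv.1 (mv.2.headD 0) k1 q1 * lookP D k1 q1 (mv.2.tail.headD 0) (k - 1 - k1) q'))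

/-- contribution of a move to `cnt` -/
def cntTerm (nQ : ℕ) (D : List Tab) (mv : Move) : BN :=
  if mv.2.isEmpty = true then lookZ D 0 mv.1
  else if mv.2.tail.isEmpty = true then lookC D 0 mv.1 (mv.2.headD 0)
  else BN.sum ((List.range D.length).map fun k => BN.sum ((List.range nQ).map fun q1 =>
    lookP D 0 mv.1 (mv.2.headD 0) k q1 * lookC D k q1 (mv.2.tail.headD 0)))

/-- an entry of the new table -/
def newP (nQ : ℕ) (M : BN) (D : List Tab) (S : Stage) (q s k q' : ℕ) : BN :=
  if k = 0 then zz else BN.sum ((moves S q s).map fun mv => popTerm nQ D mv k q') % M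

/-- an entry of the new table -/
def newC (nQ : ℕ) (M : BN) (D : List Tab) (S : Stage) (q s : ℕ) : BN :=
  BN.sum ((moves S q s).map fun mv => cntTerm nQ D mv) % M

/-- the new table -/
def newT (nQ nS L : ℕ) (M : BN) (D : List Tab) (S : Stage) : Tab :=
  ((List.range nQ).map fun q => (List.range nS).map fun s => (List.range (L + 1)).map fun k =>
      (List.range nQ).map fun q' => newP nQ M D S q s k q',
    (List.range nQ).map fun q => (List.range nS).map fun s => newC nQ M D S q s,
    (List.range nQ).map fun q => newC nQ M D S q 0)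

/-- the first table -/
def initT (F : List ℕ) (nQ : ℕ) : Tab :=
  ([], [], (List.range nQ).map fun q => if q ∈ F then oo else zz)

/-- the list of the tables of all suffixes -/
def tabs (F : List ℕ) (nQ nS L : ℕ) (M : BN) (l : List Stage) : List Tab :=
  l.foldr (fun S D => newT nQ nS L M D S :: D) [initT F nQ]

/-- bound for the number of the moves -/
def nMoves (l : List Stage) : ℕ := l.flatten.flatten.flatten.length

/-- the number of the bits -/
def nBits (l : List Stage) : ℕ := nMoves l * l.length + 1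

/-- the result -/
def GG (z : List ℕ × List Stage × ℕ × ℕ) : BN :=
  lookZ (tabs z.1 z.2.2.1 z.2.2.2 z.2.1.length (BN.pow2 (nBits z.2.1)) z.2.1) 0 0 %
    BN.pow2 (nBits z.2.1)

/-! ### Correctness -/

theorem getD_map_range {β : Type} (n i : ℕ) (hi : i < n) (f : ℕ → β) (d : β) :
    ((List.range n).map f).getD i d = f i := by
  rw [List.getD_eq_getElem?_getD, List.getElem?_map, List.getElem?_range hi]
  rfl

theorem moves_le (l : List Stage) (S : Stage) (hS : S ∈ l) (q s : ℕ) :
    (moves S q s).length ≤ nMoves l := by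
  unfold moves nMoves
  rw [List.getD_eq_getElem?_getD]
  rcases h2 : (S.getD q [])[s]? with _ | m
  · simp
  · rw [Option.getD_some]
    have hm : m ∈ S.getD q [] := List.mem_of_getElem? h2
    rw [List.getD_eq_getElem?_getD] at hm
    rcases h3 : S[q]? with _ | r
    · rw [h3] at hm
      simp at hm
    · rw [h3, Option.getD_some] at hm
      have hr : r ∈ S := List.mem_of_getElem? h3
      have h4 : r ∈ l.flatten := List.mem_flatten.2 ⟨S, hS, hr⟩
      have h5 : m ∈ l.flatten.flatten := List.mem_flatten.2 ⟨r, h4, hm⟩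
      exact (List.sublist_flatten_of_mem h5).length_le

theorem cnt_le (F : List ℕ) (N : ℕ) : ∀ (l : List Stage),
    (∀ S ∈ l, ∀ q s, (moves S q s).length ≤ N) → ∀ (q : ℕ) (st : List ℕ),
      cnt F l q st ≤ N ^ l.length := by
  intro l
  induction l with
  | nil =>
    intro _ q st
    simp only [cnt, List.length_nil, pow_zero]
    split_ifs <;> omega
  | cons S l ih =>
    intro h q st
    simp only [cnt, List.length_cons]
    have h1 : ∀ x ∈ (moves S q (st.headD 0)).map
        (fun mv => cnt F l mv.1 (mv.2 ++ st.tail)), x ≤ N ^ l.length := by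
      intro x hx
      obtain ⟨mv, _, rfl⟩ := List.mem_map.1 hx
      exact ih (fun S' hS' => h S' (List.mem_cons_of_mem _ hS')) _ _
    have h2 := List.sum_le_card_nsmul _ _ h1
    rw [List.length_map, smul_eq_mul] at h2
    refine h2.trans ?_
    rw [pow_succ, mul_comm]
    exact Nat.mul_le_mul_left _ (h S (by simp) q _)

theorem cnt_lt (F : List ℕ) (l : List Stage) (q : ℕ) (st : List ℕ) :
    cnt F l q st < 2 ^ nBits l := by
  have h1 := cnt_le F (nMoves l) l (fun S hS q s => moves_le l S hS q s) q st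
  refine h1.trans_lt ?_
  have h2 : nMoves l ^ l.length ≤ (2 ^ nMoves l) ^ l.length :=
    Nat.pow_le_pow_left Nat.lt_two_pow_self.le _
  refine h2.trans_lt ?_
  rw [← pow_mul, nBits]
  exact Nat.pow_lt_pow_right (by norm_num) (by omega)

/-- the tables are correct modulo `m` -/
structure OK (F : List ℕ) (nQ nS L m : ℕ) (l : List Stage) (D : List Tab) : Prop where
  len : D.length = l.length + 1
  hP : ∀ j q s k q', q < nQ → s < nS → k ≤ L → q' < nQ →
    ((lookP D j q s k q').val : ZMod m) = (pop nQ (l.drop j) q s k q' : ℕ)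
  hC : ∀ j ≤ l.length, ∀ q s, q < nQ → s < nS →
    ((lookC D j q s).val : ZMod m) = (cnt F (l.drop j) q [s] : ℕ)
  hZ : ∀ j ≤ l.length, ∀ q < nQ, ((lookZ D j q).val : ZMod m) = (cnt F (l.drop j) q [] : ℕ)

theorem bn_mod_cast {m : ℕ} (a M : BN) (hM : M.val = m) :
    ((a % M).val : ZMod m) = (a.val : ZMod m) := by
  rw [BN.val_mod, hM, ZMod.natCast_mod]

theorem bn_sum_cast {m : ℕ} {β : Type} (l : List β) (f : β → BN) (g : β → ℕ)
    (h : ∀ b ∈ l, ((f b).val : ZMod m) = (g b : ZMod m)) :
    ((BN.sum (l.map f)).val : ZMod m) = ((l.map g).sum : ℕ) := by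
  rw [BN.val_sum]
  induction l with
  | nil => simp
  | cons b l ih =>
    simp only [List.map_cons, List.sum_cons, Nat.cast_add]
    rw [h b (by simp), ih fun c hc => h c (by simp [hc])]

theorem bn_sum_range_cast {m : ℕ} (n : ℕ) (f : ℕ → BN) (g : ℕ → ℕ)
    (h : ∀ i < n, ((f i).val : ZMod m) = (g i : ZMod m)) :
    ((BN.sum ((List.range n).map f)).val : ZMod m) = (∑ i ∈ Finset.range n, g i : ℕ) := by
  rw [bn_sum_cast _ f g fun i hi => h i (List.mem_range.1 hi)]
  rfl

theorem ok_nil (F : List ℕ) (nQ nS L m : ℕ) : OK F nQ nS L m [] [initT F nQ] where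
  len := rfl
  hP := by
    intro j q s k q' _ _ _ _
    have h1 : lookP [initT F nQ] j q s k q' = zz := by
      unfold lookP initT T0
      rcases j with _ | j <;> simp
    rw [h1, List.drop_nil, pop, zz]
  hC := by
    intro j hj q s _ _
    have hj0 : j = 0 := by simpa using hj
    subst hj0
    have h1 : lookC [initT F nQ] 0 q s = zz := by
      unfold lookC initT
      simp
    rw [h1, zz]
    simp [cnt]
  hZ := by
    intro j hj q hq
    have hj0 : j = 0 := by simpa using hj
    subst hj0
    have h1 : lookZ [initT F nQ] 0 q = if q ∈ F then oo else zz := by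
      unfold lookZ initT
      simp only [List.getD_cons_zero]
      exact getD_map_range nQ q hq _ _
    rw [h1]
    simp only [List.drop_zero, cnt]
    by_cases h : q ∈ F <;> simp [h, oo, zz]

theorem good_tail {nQ nS : ℕ} {S : Stage} {l : List Stage} (h : Good nQ nS (S :: l)) :
    Good nQ nS l := fun S' hS' => h S' (List.mem_cons_of_mem _ hS')

theorem good_drop {nQ nS : ℕ} {l : List Stage} (h : Good nQ nS l) (k : ℕ) :
    Good nQ nS (l.drop k) := fun S' hS' => h S' (List.mem_of_mem_drop hS')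

theorem popTerm_ok {F : List ℕ} {nQ nS L m : ℕ} {l : List Stage} {D : List Tab}
    (h : OK F nQ nS L m l D) (mv : Move) (h1 : mv.1 < nQ) (h3 : ∀ a ∈ mv.2, a < nS)
    (k q' : ℕ) (hk : k ≤ L) (hq' : q' < nQ) :
    ((popTerm nQ D mv k q').val : ZMod m) =
      (match mv.2 with
      | [] => if k = 1 ∧ mv.1 = q' then 1 else 0
      | [a] => pop nQ l mv.1 a (k - 1) q'
      | a :: b :: _ => ∑ k1 ∈ Finset.range k, ∑ q1 ∈ Finset.range nQ,
          pop nQ l mv.1 a k1 q1 * pop nQ (l.drop k1) q1 b (k - 1 - k1) q' : ℕ) := by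
  obtain ⟨q, ss⟩ := mv
  simp only at h1 h3 ⊢
  unfold popTerm
  rcases ss with _ | ⟨a, _ | ⟨b, ss⟩⟩
  · by_cases hc : k = 1 ∧ q = q' <;> simp [hc, oo, zz]
  · simp only [List.isEmpty_cons, List.tail_cons, List.isEmpty_nil, List.headD_cons]
    have := h.hP 0 q a (k - 1) q' h1 (h3 a (by simp)) (by omega) hq'
    rw [List.drop_zero] at this
    simpa using this
  · simp only [List.isEmpty_cons, List.tail_cons, List.headD_cons]
    simp only [Bool.false_eq_true, if_false]
    refine bn_sum_range_cast _ _ _ fun k1 hk1 => ?_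
    refine bn_sum_range_cast _ _ _ fun q1 hq1 => ?_
    have e1 := h.hP 0 q a k1 q1 h1 (h3 a (by simp)) (by omega) hq1
    have e2 := h.hP k1 q1 b (k - 1 - k1) q' hq1 (h3 b (by simp)) (by omega) hq'
    rw [List.drop_zero] at e1
    rw [BN.val_mul, Nat.cast_mul, Nat.cast_mul, e1, e2]

theorem cntTerm_ok (hD : PddStmt) {F : List ℕ} {nQ nS L m : ℕ} {l : List Stage} {D : List Tab}
    (h : OK F nQ nS L m l D) (hl : l.length ≤ L) (hg : Good nQ nS l) (mv : Move)
    (h1 : mv.1 < nQ) (h2 : mv.2.length ≤ 2) (h3 : ∀ a ∈ mv.2, a < nS) :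
    ((cntTerm nQ D mv).val : ZMod m) = (cnt F l mv.1 mv.2 : ℕ) := by
  obtain ⟨q, ss⟩ := mv
  simp only at h1 h2 h3 ⊢
  unfold cntTerm
  rcases ss with _ | ⟨a, _ | ⟨b, _ | ⟨c, ss⟩⟩⟩
  · have := h.hZ 0 (Nat.zero_le _) q h1
    simpa using this
  · have := h.hC 0 (Nat.zero_le _) q a h1 (h3 a (by simp))
    simpa using this
  · simp only [List.isEmpty_cons, List.tail_cons, List.headD_cons]
    simp only [Bool.false_eq_true, if_false]
    rw [hD F nQ nS l hg q a [b], h.len]
    refine bn_sum_range_cast _ _ _ fun k hk => ?_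
    refine bn_sum_range_cast _ _ _ fun q1 hq1 => ?_
    have e1 := h.hP 0 q a k q1 h1 (h3 a (by simp)) (by omega) hq1
    have e2 := h.hC k (by omega) q1 b hq1 (h3 b (by simp))
    rw [List.drop_zero] at e1
    rw [BN.val_mul, Nat.cast_mul, Nat.cast_mul, e1, e2]
  · simp at h2

theorem newC_ok (hD : PddStmt) {F : List ℕ} {nQ nS L m : ℕ} {M : BN} (hM : M.val = m)
    {l : List Stage} {D : List Tab} (h : OK F nQ nS L m l D) (hl : l.length ≤ L) (S : Stage)
    (hg : Good nQ nS (S :: l)) (q s : ℕ) :
    ((newC nQ M D S q s).val : ZMod m) =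
      (((moves S q s).map fun mv => cnt F l mv.1 mv.2).sum : ℕ) := by
  unfold newC
  rw [bn_mod_cast _ _ hM]
  refine bn_sum_cast _ _ _ fun mv hmv => ?_
  obtain ⟨g1, g2, g3⟩ := hg S (by simp) q s mv hmv
  exact cntTerm_ok hD h hl (good_tail hg) mv g1 g2 g3

theorem ok_cons (hD : PddStmt) {F : List ℕ} {nQ nS L m : ℕ} {M : BN} (hM : M.val = m)
    {l : List Stage} {D : List Tab} (h : OK F nQ nS L m l D) (S : Stage)
    (hl : l.length + 1 ≤ L) (hg : Good nQ nS (S :: l)) :
    OK F nQ nS L m (S :: l) (newT nQ nS L M D S :: D) where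
  len := by rw [List.length_cons, List.length_cons, h.len]
  hP := by
    intro j q s k q' hq hs hk hq'
    rcases j with _ | j
    · have e1 : lookP (newT nQ nS L M D S :: D) 0 q s k q' = newP nQ M D S q s k q' := by
        unfold lookP newT
        rw [List.getD_cons_zero]
        simp only
        rw [getD_map_range nQ q hq, getD_map_range nS s hs, getD_map_range (L + 1) k (by omega),
          getD_map_range nQ q' hq']
      rw [e1, List.drop_zero, pop, newP]
      by_cases hk0 : k = 0
      · rw [if_pos hk0, if_pos hk0, zz]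
      · rw [if_neg hk0, if_neg hk0, bn_mod_cast _ _ hM]
        refine bn_sum_cast _ _ _ fun mv hmv => ?_
        obtain ⟨g1, g2, g3⟩ := hg S (by simp) q s mv hmv
        exact popTerm_ok h mv g1 g3 k q' hk hq'
    · exact h.hP j q s k q' hq hs hk hq'
  hC := by
    intro j hj q s hq hs
    rcases j with _ | j
    · have e1 : lookC (newT nQ nS L M D S :: D) 0 q s = newC nQ M D S q s := by
        unfold lookC newT
        rw [List.getD_cons_zero]
        simp only
        rw [getD_map_range nQ q hq, getD_map_range nS s hs]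
      rw [e1, newC_ok hD hM h (by omega) S hg, List.drop_zero]
      simp [cnt]
    · exact h.hC j (by simpa using hj) q s hq hs
  hZ := by
    intro j hj q hq
    rcases j with _ | j
    · have e1 : lookZ (newT nQ nS L M D S :: D) 0 q = newC nQ M D S q 0 := by
        unfold lookZ newT
        rw [List.getD_cons_zero]
        simp only
        rw [getD_map_range nQ q hq]
      rw [e1, newC_ok hD hM h (by omega) S hg, List.drop_zero]
      simp [cnt]
    · exact h.hZ j (by simpa using hj) q hq

theorem tabs_ok (hD : PddStmt) (F : List ℕ) (nQ nS L m : ℕ) (M : BN) (hM : M.val = m) :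
    ∀ l : List Stage, l.length ≤ L → Good nQ nS l →
      OK F nQ nS L m l (tabs F nQ nS L M l) := by
  intro l
  induction l with
  | nil => intro _ _; exact ok_nil F nQ nS L m
  | cons S l ih =>
    intro hl hg
    rw [List.length_cons] at hl
    exact ok_cons hD hM (ih (by omega) (good_tail hg)) S hl hg

theorem GG_val (hD : PddStmt) (F : List ℕ) (l : List Stage) (nQ nS : ℕ) (hQ : 0 < nQ)
    (hg : Good nQ nS l) : (GG (F, l, nQ, nS)).val = cnt F l 0 [] := by
  have h := tabs_ok hD F nQ nS l.length (2 ^ nBits l) (BN.pow2 (nBits l)) rfl l le_rfl hg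
  have h1 := h.hZ 0 (Nat.zero_le _) 0 hQ
  rw [List.drop_zero, ZMod.natCast_eq_natCast_iff'] at h1
  unfold GG
  simp only
  rw [BN.val_mod, BN.val_pow2, h1]
  exact Nat.mod_eq_of_lt (cnt_lt F l 0 [])

/-! ### Polynomial time -/

variable {α : Type} [ToData α]

@[fun_prop]
theorem PT_lookP {D : α → List Tab} {j q s k q' : α → ℕ} (hD : PolyTime D) (hj : PolyTime j)
    (hq : PolyTime q) (hs : PolyTime s) (hk : PolyTime k) (hq' : PolyTime q') :
    PolyTime (fun a => lookP (D a) (j a) (q a) (s a) (k a) (q' a)) := by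
  unfold lookP
  fun_prop

@[fun_prop]
theorem PT_lookC {D : α → List Tab} {j q s : α → ℕ} (hD : PolyTime D) (hj : PolyTime j)
    (hq : PolyTime q) (hs : PolyTime s) :
    PolyTime (fun a => lookC (D a) (j a) (q a) (s a)) := by
  unfold lookC
  fun_prop

@[fun_prop]
theorem PT_lookZ {D : α → List Tab} {j q : α → ℕ} (hD : PolyTime D) (hj : PolyTime j)
    (hq : PolyTime q) :
    PolyTime (fun a => lookZ (D a) (j a) (q a)) := by
  unfold lookZ
  fun_prop

@[fun_prop]
theorem PT_popTerm {nQ : α → ℕ} {D : α → List Tab} {mv : α → Move} {k q' : α → ℕ}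
    (hn : PolyTime nQ) (hD : PolyTime D) (hm : PolyTime mv) (hk : PolyTime k)
    (hq' : PolyTime q') :
    PolyTime (fun a => popTerm (nQ a) (D a) (mv a) (k a) (q' a)) := by
  unfold popTerm
  fun_prop

@[fun_prop]
theorem PT_cntTerm {nQ : α → ℕ} {D : α → List Tab} {mv : α → Move}
    (hn : PolyTime nQ) (hD : PolyTime D) (hm : PolyTime mv) :
    PolyTime (fun a => cntTerm (nQ a) (D a) (mv a)) := by
  unfold cntTerm
  fun_prop

@[fun_prop]
theorem PT_moves {S : α → Stage} {q s : α → ℕ} (hS : PolyTime S) (hq : PolyTime q)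
    (hs : PolyTime s) : PolyTime (fun a => moves (S a) (q a) (s a)) := by
  unfold moves
  fun_prop

@[fun_prop]
theorem PT_newP {nQ : α → ℕ} {M : α → BN} {D : α → List Tab} {S : α → Stage}
    {q s k q' : α → ℕ} (hn : PolyTime nQ) (hM : PolyTime M) (hD : PolyTime D) (hS : PolyTime S)
    (hq : PolyTime q) (hs : PolyTime s) (hk : PolyTime k) (hq' : PolyTime q') :
    PolyTime (fun a => newP (nQ a) (M a) (D a) (S a) (q a) (s a) (k a) (q' a)) := by
  unfold newP
  fun_prop

@[fun_prop]
theorem PT_newC {nQ : α → ℕ} {M : α → BN} {D : α → List Tab} {S : α → Stage}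
    {q s : α → ℕ} (hn : PolyTime nQ) (hM : PolyTime M) (hD : PolyTime D) (hS : PolyTime S)
    (hq : PolyTime q) (hs : PolyTime s) :
    PolyTime (fun a => newC (nQ a) (M a) (D a) (S a) (q a) (s a)) := by
  unfold newC
  fun_prop

@[fun_prop]
theorem PT_newT {nQ nS L : α → ℕ} {M : α → BN} {D : α → List Tab} {S : α → Stage}
    (hn : PolyTime nQ) (hnS : PolyTime nS) (hL : PolyTime L) (hM : PolyTime M)
    (hD : PolyTime D) (hS : PolyTime S) :
    PolyTime (fun a => newT (nQ a) (nS a) (L a) (M a) (D a) (S a)) := by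
  unfold newT
  fun_prop

@[fun_prop]
theorem PT_initT {F : α → List ℕ} {nQ : α → ℕ} (hF : PolyTime F) (hn : PolyTime nQ) :
    PolyTime (fun a => initT (F a) (nQ a)) := by
  unfold initT
  fun_prop

@[fun_prop]
theorem PT_nBits {l : α → List Stage} (hl : PolyTime l) : PolyTime (fun a => nBits (l a)) := by
  unfold nBits nMoves
  fun_prop

theorem sz_map_range {β : Type} [ToData β] (n B : ℕ) (f : ℕ → β) (h : ∀ i, sz (f i) ≤ B) :
    sz ((List.range n).map f) ≤ n * (B + 1) + 1 := by
  have h1 := sz_list_le B ((List.range n).map f) (by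
    intro b hb
    obtain ⟨i, _, rfl⟩ := List.mem_map.1 hb
    exact h i)
  simpa using h1

theorem sz_mod_le (x : BN) (K : ℕ) : sz (x % BN.pow2 K) ≤ 4 * K + 1 := by
  refine sz_le_of_lt ?_
  rw [BN.val_mod, BN.val_pow2]
  exact Nat.mod_lt _ (by positivity)

theorem sz_newT_le (nQ nS L K : ℕ) (D : List Tab) (S : Stage) :
    sz (newT nQ nS L (BN.pow2 K) D S) ≤
      (nQ * ((nS * (((L + 1) * ((nQ * (4 * K + 1 + 1) + 1) + 1) + 1) + 1) + 1) + 1) + 1) +
      ((nQ * ((nS * (4 * K + 1 + 1) + 1) + 1) + 1) + (nQ * (4 * K + 1 + 1) + 1) + 1) + 1 := by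
  have hP : ∀ q s k q', sz (newP nQ (BN.pow2 K) D S q s k q') ≤ 4 * K + 1 := by
    intro q s k q'
    unfold newP
    split_ifs
    · have : sz zz = 1 := rfl
      omega
    · exact sz_mod_le _ _
  have hC : ∀ q s, sz (newC nQ (BN.pow2 K) D S q s) ≤ 4 * K + 1 := by
    intro q s
    exact sz_mod_le _ _
  unfold newT
  rw [sz_pair, sz_pair]
  refine Nat.add_le_add_right (Nat.add_le_add ?_ (Nat.add_le_add_right (Nat.add_le_add ?_ ?_) _)) _
  · refine sz_map_range _ _ _ fun q => ?_
    refine sz_map_range _ _ _ fun s => ?_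
    refine sz_map_range _ _ _ fun k => ?_
    exact sz_map_range _ _ _ fun q' => hP q s k q'
  · refine sz_map_range _ _ _ fun q => ?_
    exact sz_map_range _ _ _ fun s => hC q s
  · exact sz_map_range _ _ _ fun q => hC q 0

theorem PT_GG : PolyTime GG := by
  have h : PolyTime (fun z : List ℕ × List Stage × ℕ × ℕ =>
      z.2.1.reverse.foldl (fun D S => newT z.2.2.1 z.2.2.2 z.2.1.length
        (BN.pow2 (nBits z.2.1)) D S :: D) [initT z.1 z.2.2.1]) := by
    have hb : PBd (fun z : List ℕ × List Stage × ℕ × ℕ => nBits z.2.1) := PBd.nat (by fun_prop)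
    have h1 : PBd (fun z : List ℕ × List Stage × ℕ × ℕ => z.2.2.1) := PBd.nat (by fun_prop)
    have h2 : PBd (fun z : List ℕ × List Stage × ℕ × ℕ => z.2.2.2) := PBd.nat (by fun_prop)
    have h3 : PBd (fun z : List ℕ × List Stage × ℕ × ℕ => z.2.1.length) := PBd.nat (by fun_prop)
    have hc : ∀ n : ℕ, PBd (fun _ : List ℕ × List Stage × ℕ × ℕ => n) := fun n => PBd.const n
    have h4 := (((hc 4).mul hb).add (hc 1)).add (hc 1)
    have h5 := (h1.mul h4).add (hc 1)
    refine PolyTime.foldl_add (l := fun z : List ℕ × List Stage × ℕ × ℕ => z.2.1.reverse)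
      (s0 := fun z => [initT z.1 z.2.2.1])
      (step := fun z (D : List Tab) S => newT z.2.2.1 z.2.2.2 z.2.1.length
        (BN.pow2 (nBits z.2.1)) D S :: D) (by fun_prop) (by fun_prop) (by fun_prop)
      (C := fun z =>
      (z.2.2.1 * ((z.2.2.2 * (((z.2.1.length + 1) *
        ((z.2.2.1 * (4 * nBits z.2.1 + 1 + 1) + 1) + 1) + 1) + 1) + 1) + 1) + 1) +
      ((z.2.2.1 * ((z.2.2.2 * (4 * nBits z.2.1 + 1 + 1) + 1) + 1) + 1) +
        (z.2.2.1 * (4 * nBits z.2.1 + 1 + 1) + 1) + 1) + 1 + 1) ?_ ?_
    · exact (((((h1.mul (((h2.mul ((((h3.add (hc 1)).mul (h5.add (hc 1))).add (hc 1)).add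
        (hc 1))).add (hc 1)).add (hc 1))).add (hc 1)).add ((((h1.mul (((h2.mul h4).add
        (hc 1)).add (hc 1))).add (hc 1)).add h5).add (hc 1)))).add (hc 1)).add (hc 1)
    · intro z D S _
      have := sz_newT_le z.2.2.1 z.2.2.2 z.2.1.length (nBits z.2.1) D S
      rw [sz_cons]
      omega
  have h' : PolyTime (fun z : List ℕ × List Stage × ℕ × ℕ =>
      lookZ (z.2.1.reverse.foldl (fun D S => newT z.2.2.1 z.2.2.2 z.2.1.length
        (BN.pow2 (nBits z.2.1)) D S :: D) [initT z.1 z.2.2.1]) 0 0 %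
        BN.pow2 (nBits z.2.1)) := by
    refine PolyTime.bn_mod (PT_lookZ h (by fun_prop) (by fun_prop)) (by fun_prop)
  refine PolyTime.congr h' fun z => ?_
  unfold GG tabs
  rw [List.foldl_reverse]

theorem pda : PdaStmt := fun hD =>
  ⟨GG, PT_GG, fun F l nQ nS hQ _ hg => GG_val hD F l nQ nS hQ hg⟩

end Pool.Agent.Helper38.LM
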